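import Pool.Agent.H48.ER.Targets

/-!
# MP_816b90_co: a vertex with neighbours on all rungs of a prism
-/

set_option autoImplicit false

namespace Pool.Agent.H56.ER

open Pool.Agent.H48.ER

variable {V : Type} {G : SimpleGraph V}

/-- the part of a path after the last neighbour of `c` -/
theorem last_part (hTRI : T_TRI) {n : ℕ} {x y c : V} {R : Set V} (hR : IP G n x y R)
    (hc : c ∉ R) (hw : ∃ w ∈ R, G.Adj c w) : ∃ (t : ℕ) (g : V) (T : Set V), IP G t g y T ∧
      T ⊆ R ∧ (∀ w ∈ T, G.Adj c w ↔ w = g) ∧ (x ∈ T → G.Adj c x) := by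
  rcases hTRI V G n x y c R hR hc hw with ⟨g, i, j, R1, R2, h1, h2, _, hu, hi, _, ha⟩ |
    ⟨g, g', i, j, R1, R2, h1, h2, _, hu, hi, _, ha⟩ |
    ⟨g, g', i, j, R1, R2, h1, h2, _, s1, s2, hi, _, _, ha⟩
  · have s2 : R2 ⊆ R := hu ▸ Set.subset_union_right
    refine ⟨j, g, R2, h2, s2, fun w hw => ha w (s2 hw), fun hx => ?_⟩
    have h3 : x ∈ R1 ∩ R2 := ⟨h1.left_mem, hx⟩
    rw [hi] at h3
    exact (ha x (s2 hx)).2 h3
  · have s2 : R2 ⊆ R := hu ▸ Set.subset_union_right
    refine ⟨j, g', R2, h2, s2, fun w hw => ?_, fun hx => ?_⟩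
    · rw [ha w (s2 hw)]
      refine ⟨fun h => h.resolve_left ?_, Or.inr⟩
      rintro rfl
      exact Set.disjoint_left.1 hi h1.right_mem hw
    · exact absurd hx (Set.disjoint_left.1 hi h1.left_mem)
  · exact ⟨j, g', R2, h2, s2, ha, fun hx => absurd hx (Set.disjoint_left.1 hi h1.left_mem)⟩

theorem pf_PL3 (hTRI : T_TRI) (hPYR : T_PYR) : T_PL3 := by
  intro V G a b n P d hN hP hd hg
  by_contra hcon
  push Not at hcon
  obtain ⟨hc1, hc2⟩ := hcon
  have hdi : ∀ i, d ∉ P i := fun i h => hd (mem_ver h)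
  choose t x T hT hTs hTa hTx using fun i => last_part hTRI (hP.ip i) (hdi i) (hg i)
  have hadj : ∀ i, G.Adj d (x i) := fun i => (hTa i _ (hT i).left_mem).2 rfl
  refine hPYR V G d b (fun i => t i + 1) (fun i => insert d (T i)) hN ?_ ?_ ?_ ?_
  · intro i
    exact (hT i).cons (fun h => hdi i (hTs i h)) (hTa i)
  · intro i
    exact Nat.le_add_left _ _
  · rintro i j hij ⟨h1, h2⟩
    have e1 : t i = 0 := by simpa using h1
    have e2 : t j = 0 := by simpa using h2
    have h3 := hT i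
    have h4 := hT j
    rw [e1] at h3
    rw [e2] at h4
    refine hc2 i j hij ?_ ?_
    · rw [← h3.eq_of_zero.1]; exact hadj i
    · rw [← h4.eq_of_zero.1]; exact hadj j
  · intro i j hij u hu v hv hud hvd
    have hu' : u ∈ T i := hu.resolve_left hud
    have hv' : v ∈ T j := hv.resolve_left hvd
    refine ⟨hP.ne_of_mem hij (hTs i hu') (hTs j hv'), ?_⟩
    rw [hP.adj i j hij u (hTs i hu') v (hTs j hv')]
    refine ⟨fun h => h.resolve_left ?_, Or.inr⟩
    rintro ⟨rfl, rfl⟩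
    exact hc1 i j hij (hTx i hu') (hTx j hv')

end Pool.Agent.H56.ER
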