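import Pool.Agent.H48.ER.Targets

/-!
# MP_816b90_co: attachments to a prism, an adjacent pair and a single vertex
-/

set_option autoImplicit false

namespace Pool.Agent.H56.ER

open Pool.Agent.H48.ER

variable {V : Type} {G : SimpleGraph V}

/-- a pyramid given by three explicit paths -/
theorem pyr3 (hPYR : T_PYR) (hN : NOH G) {c b1 b2 b3 : V} {m1 m2 m3 : ℕ} {R1 R2 R3 : Set V}
    (p1 : IP G m1 c b1 R1) (p2 : IP G m2 c b2 R2) (p3 : IP G m3 c b3 R3)
    (o1 : 1 ≤ m1) (o2 : 1 ≤ m2) (o3 : 1 ≤ m3)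
    (q12 : ¬ (m1 = 1 ∧ m2 = 1)) (q13 : ¬ (m1 = 1 ∧ m3 = 1)) (q23 : ¬ (m2 = 1 ∧ m3 = 1))
    (x12 : ∀ u ∈ R1, ∀ v ∈ R2, u ≠ c → v ≠ c → u ≠ v ∧ (G.Adj u v ↔ u = b1 ∧ v = b2))
    (x13 : ∀ u ∈ R1, ∀ v ∈ R3, u ≠ c → v ≠ c → u ≠ v ∧ (G.Adj u v ↔ u = b1 ∧ v = b3))
    (x23 : ∀ u ∈ R2, ∀ v ∈ R3, u ≠ c → v ≠ c → u ≠ v ∧ (G.Adj u v ↔ u = b2 ∧ v = b3)) :
    False := by
  refine hPYR V G c ![b1, b2, b3] ![m1, m2, m3] ![R1, R2, R3] hN ?_ ?_ ?_ ?_
  · intro i
    fin_cases i <;> assumption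
  · intro i
    fin_cases i <;> assumption
  · intro i j hij
    fin_cases i <;> fin_cases j <;>
      first
        | exact absurd rfl hij
        | exact q12
        | exact q13
        | exact q23
        | exact fun h => q12 h.symm
        | exact fun h => q13 h.symm
        | exact fun h => q23 h.symm
  · have s12 : ∀ u ∈ R2, ∀ v ∈ R1, u ≠ c → v ≠ c →
        u ≠ v ∧ (G.Adj u v ↔ u = b2 ∧ v = b1) := by
      intro u hu v hv h1 h2
      obtain ⟨h3, h4⟩ := x12 v hv u hu h2 h1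
      exact ⟨h3.symm, by rw [SimpleGraph.adj_comm, h4]; exact and_comm⟩
    have s13 : ∀ u ∈ R3, ∀ v ∈ R1, u ≠ c → v ≠ c →
        u ≠ v ∧ (G.Adj u v ↔ u = b3 ∧ v = b1) := by
      intro u hu v hv h1 h2
      obtain ⟨h3, h4⟩ := x13 v hv u hu h2 h1
      exact ⟨h3.symm, by rw [SimpleGraph.adj_comm, h4]; exact and_comm⟩
    have s23 : ∀ u ∈ R3, ∀ v ∈ R2, u ≠ c → v ≠ c →
        u ≠ v ∧ (G.Adj u v ↔ u = b3 ∧ v = b2) := by
      intro u hu v hv h1 h2
      obtain ⟨h3, h4⟩ := x23 v hv u hu h2 h1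
      exact ⟨h3.symm, by rw [SimpleGraph.adj_comm, h4]; exact and_comm⟩
    intro i j hij
    fin_cases i <;> fin_cases j <;>
      first
        | exact absurd rfl hij
        | exact x12
        | exact x13
        | exact x23
        | exact s12
        | exact s13
        | exact s23

theorem pf_PLA (hPYR : T_PYR) : T_PLA := by
  intro V G a b n P i j l d d' g g' h R hN hP hij hC hA hU
  obtain ⟨hR, hRv, hRa⟩ := hC
  obtain ⟨i1, j1, R1, R2, hR1, hR2, hij1, hRu, hRd, hRX, hAd⟩ := hA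
  obtain ⟨i2, j2, T1, T2, hT1, hT2, hij2, hTu, hTi, hTN, hAd'⟩ := hU
  have s1 : R1 ⊆ P i := hRu ▸ Set.subset_union_left
  have s2 : R2 ⊆ P i := hRu ▸ Set.subset_union_right
  have t1 : T1 ⊆ P j := hTu ▸ Set.subset_union_left
  have t2 : T2 ⊆ P j := hTu ▸ Set.subset_union_right
  have hg1 : g ∈ R1 := hR1.right_mem
  have hg2 : g' ∈ R2 := hR2.left_mem
  have hh1 : h ∈ T1 := hT1.right_mem
  have hh2 : h ∈ T2 := hT2.left_mem
  have dT : ∀ u ∈ T1, u ∈ T2 → u = h := by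
    intro u hu1 hu2
    have : u ∈ T1 ∩ T2 := ⟨hu1, hu2⟩
    rw [hTi] at this
    exact this
  have dR : ∀ u ∈ R1, u ∉ R2 := fun u h1 h2 => Set.disjoint_left.1 hRd h1 h2
  have dd' : G.Adj d' h := (hAd' h (t1 hh1)).2 rfl
  have dg : G.Adj d g := (hAd g (s1 hg1)).2 (Or.inl rfl)
  have dg' : G.Adj d g' := (hAd g' (s2 hg2)).2 (Or.inr rfl)
  by_contra hcon
  push Not at hcon
  obtain ⟨hc1, hc2⟩ := hcon
  -- the three paths
  have hhR : h ∉ R := fun e => hRv h e (mem_ver (t1 hh1))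
  have pA : IP G (l + 1) h d (insert h R) := by
    refine hR.rev.cons hhR ?_
    intro w hw
    constructor
    · intro e
      rcases hRa w hw h (mem_ver (t1 hh1)) e.symm with ⟨_, h2⟩ | ⟨h2, _⟩
      · exact absurd (hP.rung h2 (t1 hh1)) hij
      · exact h2
    · rintro rfl
      exact dd'.symm
  have X : ∀ u ∈ P j, ∀ v ∈ P i, G.Adj u v ↔ (u = a j ∧ v = a i) ∨ (u = b j ∧ v = b i) :=
    fun u hu v hv => hP.adj j i hij.symm u hu v hv
  have aR1 : a i ∈ R1 := hR1.left_mem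
  have bR2 : b i ∈ R2 := hR2.right_mem
  have aT1 : a j ∈ T1 := hT1.left_mem
  have bT2 : b j ∈ T2 := hT2.right_mem
  have pB : IP G (i2 + i1 + 1) h g (T1 ∪ R1) := by
    refine hT1.rev.append hR1 ?_ ?_
    · rw [Set.disjoint_left]
      intro u h1 h2
      exact hP.ne_of_mem hij (s1 h2) (t1 h1) rfl
    · intro u hu v hv
      rw [X u (t1 hu) v (s1 hv)]
      constructor
      · rintro (h1 | ⟨_, h2⟩)
        · exact h1
        · exact absurd (h2 ▸ bR2) (dR v hv)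
      · exact Or.inl
  have pC : IP G (j2 + j1 + 1) h g' (T2 ∪ R2) := by
    refine hT2.append hR2.rev ?_ ?_
    · rw [Set.disjoint_left]
      intro u h1 h2
      exact hP.ne_of_mem hij (s2 h2) (t2 h1) rfl
    · intro u hu v hv
      rw [X u (t2 hu) v (s2 hv)]
      constructor
      · rintro (⟨_, h2⟩ | h1)
        · exact absurd hv (h2 ▸ dR _ aR1)
        · exact h1
      · exact Or.inr
  have hnj : 1 ≤ n j := hP.pos j
  have key : ∀ u ∈ R, ∀ v ∈ ver P, v ≠ h → G.Adj u v → u = d ∧ v ∈ P i ∧ (v = g ∨ v = g') := by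
    intro u hu v hv hvh huv
    rcases hRa u hu v hv huv with ⟨h1, h2⟩ | ⟨h1, h2⟩
    · subst h1
      exact ⟨rfl, h2, (hAd v h2).1 huv⟩
    · subst h1
      exact absurd ((hAd' v h2).1 huv) hvh
  refine pyr3 hPYR hN pA pB pC (by omega) (by omega) (by omega) ?_ ?_ ?_ ?_ ?_ ?_
  · rintro ⟨h1, h2⟩
    have e1 : l = 0 := by omega
    have e2 : i2 = 0 := by omega
    have e3 : i1 = 0 := by omega
    subst e1 e2 e3
    obtain ⟨e4, _⟩ := hR.eq_of_zero
    obtain ⟨e5, _⟩ := hT1.eq_of_zero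
    obtain ⟨e6, _⟩ := hR1.eq_of_zero
    exact hc1 (by rw [e6]; exact dg) (by rw [e5]; exact dd')
  · rintro ⟨h1, h2⟩
    have e2 : j2 = 0 := by omega
    have e3 : j1 = 0 := by omega
    subst e2 e3
    obtain ⟨e5, _⟩ := hT2.eq_of_zero
    obtain ⟨e6, _⟩ := hR2.eq_of_zero
    exact hc2 (by rw [← e6]; exact dg') (by rw [← e5]; exact dd')
  · rintro ⟨h1, h2⟩
    omega
  · intro u hu v hv huh hvh
    have hu' : u ∈ R := hu.resolve_left huh
    have hvV : v ∈ ver P := by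
      rcases hv with hv | hv
      · exact mem_ver (t1 hv)
      · exact mem_ver (s1 hv)
    refine ⟨fun e => hRv u hu' (e ▸ hvV), ?_, ?_⟩
    · intro huv
      obtain ⟨h1, h2, h3⟩ := key u hu' v hvV hvh huv
      refine ⟨h1, h3.resolve_right ?_⟩
      rintro rfl
      rcases hv with hv | hv
      · exact hij (hP.rung h2 (t1 hv))
      · exact dR _ hv hg2
    · rintro ⟨rfl, rfl⟩
      exact dg
  · intro u hu v hv huh hvh
    have hu' : u ∈ R := hu.resolve_left huh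
    have hvV : v ∈ ver P := by
      rcases hv with hv | hv
      · exact mem_ver (t2 hv)
      · exact mem_ver (s2 hv)
    refine ⟨fun e => hRv u hu' (e ▸ hvV), ?_, ?_⟩
    · intro huv
      obtain ⟨h1, h2, h3⟩ := key u hu' v hvV hvh huv
      refine ⟨h1, h3.resolve_left ?_⟩
      rintro rfl
      rcases hv with hv | hv
      · exact hij (hP.rung h2 (t2 hv))
      · exact dR _ hg1 hv
    · rintro ⟨rfl, rfl⟩
      exact dg'
  · intro u hu v hv huh hvh
    rcases hu with hu | hu <;> rcases hv with hv | hv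
    · refine ⟨fun e => huh (dT u hu (e ▸ hv)), ?_, ?_⟩
      · intro huv
        exact absurd huv (hTN u ⟨hu, huh⟩ v ⟨hv, hvh⟩)
      · rintro ⟨rfl, _⟩
        exact absurd (hP.rung (s1 hg1) (t1 hu)) hij
    · refine ⟨hP.ne_of_mem hij.symm (t1 hu) (s2 hv), ?_, ?_⟩
      · intro huv
        rcases (X u (t1 hu) v (s2 hv)).1 huv with ⟨_, h2⟩ | ⟨h1, _⟩
        · exact absurd (h2 ▸ hv) (dR _ aR1)
        · exact absurd (dT u hu (h1 ▸ bT2)) huh
      · rintro ⟨rfl, _⟩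
        exact absurd (hP.rung (s1 hg1) (t1 hu)) hij
    · refine ⟨hP.ne_of_mem hij (s1 hu) (t2 hv), ?_, ?_⟩
      · intro huv
        rcases (X v (t2 hv) u (s1 hu)).1 huv.symm with ⟨h1, _⟩ | ⟨_, h2⟩
        · exact absurd (dT v (h1 ▸ aT1) hv) hvh
        · exact absurd (h2 ▸ bR2) (dR _ hu)
      · rintro ⟨_, rfl⟩
        exact absurd (hP.rung (s2 hg2) (t2 hv)) hij
    · exact ⟨fun e => dR u hu (e ▸ hv), hRX u hu v hv⟩

end Pool.Agent.H56.ER
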